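import Pool.Agent.Helper30.Pak.L6
import Pool.Agent.Helper98.Pak.LWB

/-! MP_005844_an, piece LW-C (second half): the four normal forms give Lattès maps of explicit
Weierstrass curves. -/

set_option linter.unusedSectionVars false
set_option linter.unnecessarySimpa false

namespace Pool.Agent.Helper63.Pak

open IntermediateField LPiece

variable {Ω : Type} [Field Ω] [Algebra ℂ Ω] [CurveUniverse Ω] {A B : RatFunc ℂ}

namespace LWC

/-- the curve `y² = x³ + a₂ x² + a₄ x + a₆` -/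
def curve (a₂ a₄ a₆ : ℂ) : WeierstrassCurve ℂ := ⟨0, a₂, 0, a₄, a₆⟩

theorem curve_Δ (a₂ a₄ a₆ : ℂ) : (curve a₂ a₄ a₆).Δ =
    16 * (a₂ ^ 2 * a₄ ^ 2 - 4 * a₄ ^ 3 - 4 * a₂ ^ 3 * a₆ + 18 * a₂ * a₄ * a₆ - 27 * a₆ ^ 2) := by
  simp only [curve, WeierstrassCurve.Δ, WeierstrassCurve.b₂, WeierstrassCurve.b₄,
    WeierstrassCurve.b₆, WeierstrassCurve.b₈]
  ring

theorem finish {x η X Y : Ω} (hx : Transcendental ℂ x) {g : Ω ≃ₐ[ℂ] Ω} (hgx : g x = ev A x)
    (hg : mapF g (ℂ⟮x⟯ ⊔ ℂ⟮η⟯) ≤ ℂ⟮x⟯ ⊔ ℂ⟮η⟯) (hXt : Transcendental ℂ X)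
    (hX : X ∈ ℂ⟮x⟯ ⊔ ℂ⟮η⟯) (hY : Y ∈ ℂ⟮x⟯ ⊔ ℂ⟮η⟯) (hx' : x ∈ ℂ⟮X⟯ ⊔ ℂ⟮Y⟯)
    (hη' : η ∈ ℂ⟮X⟯ ⊔ ℂ⟮Y⟯) {a₂ a₄ a₆ : ℂ} (hΔ : (curve a₂ a₄ a₆).Δ ≠ 0)
    (h : Y ^ 2 = X ^ 3 + algebraMap ℂ Ω a₂ * X ^ 2 + algebraMap ℂ Ω a₄ * X + algebraMap ℂ Ω a₆) :
    IsLattesW A := by
  have hE : (ℂ⟮X⟯ ⊔ ℂ⟮Y⟯ : IntermediateField ℂ Ω) = ℂ⟮x⟯ ⊔ ℂ⟮η⟯ := by
    apply le_antisymm
    · exact sup_le (adjoin_simple_le_iff.2 hX) (adjoin_simple_le_iff.2 hY)
    · exact sup_le (adjoin_simple_le_iff.2 hx') (adjoin_simple_le_iff.2 hη')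
  have : (curve a₂ a₄ a₆).IsElliptic := ⟨isUnit_iff_ne_zero.2 hΔ⟩
  refine isLattesW_of_subfield (A := A) hXt (curve a₂ a₄ a₆) ?_ (g := g) ?_ (θ := x) hx' hx hgx
  · simp only [curve, map_zero, zero_mul, add_zero]
    exact h
  · rw [hE]; exact hg

theorem memL {x η : Ω} : x ∈ (ℂ⟮x⟯ ⊔ ℂ⟮η⟯ : IntermediateField ℂ Ω) :=
  (le_sup_left : ℂ⟮x⟯ ≤ ℂ⟮x⟯ ⊔ ℂ⟮η⟯) (mem_adjoin_simple_self ℂ _)

theorem memR {x η : Ω} : η ∈ (ℂ⟮x⟯ ⊔ ℂ⟮η⟯ : IntermediateField ℂ Ω) :=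
  (le_sup_right : ℂ⟮η⟯ ≤ ℂ⟮x⟯ ⊔ ℂ⟮η⟯) (mem_adjoin_simple_self ℂ _)

theorem x_sub_ne {x : Ω} (hx : Transcendental ℂ x) (c : ℂ) : x - algebraMap ℂ Ω c ≠ 0 := by
  intro h
  apply hx
  rw [sub_eq_zero.1 h]
  exact isAlgebraic_algebraMap c

/-- type (2,2,2,2) -/
theorem case2222 (hPT : PTFacts Ω) (hA : 2 ≤ rdeg A) (nu : OnePoint ℂ → ℕ) {p₁ p₂ p₃ : ℂ}
    (h12 : p₁ ≠ p₂) (h13 : p₁ ≠ p₃) (h23 : p₂ ≠ p₃)
    (hp : ∀ p : ℂ, nu (p : OnePoint ℂ) = if p = p₁ ∨ p = p₂ ∨ p = p₃ then 2 else 1)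
    (hinf : nu OnePoint.infty = 2)
    (hcov : ∀ q, locDeg A q * nu q = nu (pmap A q)) {x : Ω} (hx : Transcendental ℂ x) :
    IsLattesW A := by
  classical
  have n1 : nu (p₁ : OnePoint ℂ) = 2 := by rw [hp]; simp
  have n2 : nu (p₂ : OnePoint ℂ) = 2 := by rw [hp]; simp
  have n3 : nu (p₃ : OnePoint ℂ) = 2 := by rw [hp]; simp
  have D : PData nu 2 {p₁, p₂, p₃} := by
    refine ⟨?_, by norm_num, ?_, ?_, ?_⟩
    · rintro (_ | c)
      · change 0 < nu OnePoint.infty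
        rw [hinf]; norm_num
      · change 0 < nu (c : OnePoint ℂ)
        rw [hp]; split_ifs <;> norm_num
    · rintro (_ | c)
      · change nu OnePoint.infty ∣ 2
        rw [hinf]
      · change nu (c : OnePoint ℂ) ∣ 2
        rw [hp]; split_ifs <;> norm_num
    · intro c
      rw [hp]
      simp only [Finset.mem_insert, Finset.mem_singleton]
      split_ifs with h
      · simpa using h
      · simpa using h
    · rw [Finset.sum_insert (by simp [h12, h13]), Finset.sum_insert (by simp [h23]),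
        Finset.sum_singleton, n1, n2, n3, hinf]
      norm_num
  obtain ⟨η, g, hη0, hη, hgx, hg⟩ := LPiece.radical hPT hA D hcov hx
  rw [eval₂_HP, Finset.prod_insert (by simp [h12, h13]), Finset.prod_insert (by simp [h23]),
    Finset.prod_singleton, n1, n2, n3] at hη
  norm_num at hη
  refine finish hx hgx hg (X := x) (Y := η) hx memL memR memL memR
    (a₂ := -(p₁ + p₂ + p₃)) (a₄ := p₁ * p₂ + p₁ * p₃ + p₂ * p₃) (a₆ := -(p₁ * p₂ * p₃)) ?_ ?_
  · rw [curve_Δ]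
    have : 16 * ((-(p₁ + p₂ + p₃)) ^ 2 * (p₁ * p₂ + p₁ * p₃ + p₂ * p₃) ^ 2 -
        4 * (p₁ * p₂ + p₁ * p₃ + p₂ * p₃) ^ 3 - 4 * (-(p₁ + p₂ + p₃)) ^ 3 * (-(p₁ * p₂ * p₃)) +
        18 * (-(p₁ + p₂ + p₃)) * (p₁ * p₂ + p₁ * p₃ + p₂ * p₃) * (-(p₁ * p₂ * p₃)) -
        27 * (-(p₁ * p₂ * p₃)) ^ 2) =
        16 * ((p₁ - p₂) * (p₁ - p₃) * (p₂ - p₃)) ^ 2 := by ring
    rw [this]
    exact mul_ne_zero (by norm_num) (pow_ne_zero _ (mul_ne_zero (mul_ne_zero
      (sub_ne_zero.2 h12) (sub_ne_zero.2 h13)) (sub_ne_zero.2 h23)))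
  · rw [hη]
    simp only [map_neg, map_add, map_mul]
    ring

/-- type (3,3,3) -/
theorem case333 (hPT : PTFacts Ω) (hA : 2 ≤ rdeg A) (nu : OnePoint ℂ → ℕ)
    (hp : ∀ p : ℂ, nu (p : OnePoint ℂ) = if p = 1 ∨ p = -1 then 3 else 1)
    (hinf : nu OnePoint.infty = 3)
    (hcov : ∀ q, locDeg A q * nu q = nu (pmap A q)) {x : Ω} (hx : Transcendental ℂ x) :
    IsLattesW A := by
  classical
  have h12 : (1 : ℂ) ≠ -1 := by norm_num
  have n1 : nu ((1 : ℂ) : OnePoint ℂ) = 3 := by rw [hp]; simp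
  have n2 : nu ((-1 : ℂ) : OnePoint ℂ) = 3 := by rw [hp]; simp
  have D : PData nu 3 {1, -1} := by
    refine ⟨?_, by norm_num, ?_, ?_, ?_⟩
    · rintro (_ | c)
      · change 0 < nu OnePoint.infty
        rw [hinf]; norm_num
      · change 0 < nu (c : OnePoint ℂ)
        rw [hp]; split_ifs <;> norm_num
    · rintro (_ | c)
      · change nu OnePoint.infty ∣ 3
        rw [hinf]
      · change nu (c : OnePoint ℂ) ∣ 3
        rw [hp]; split_ifs <;> norm_num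
    · intro c
      rw [hp]
      simp only [Finset.mem_insert, Finset.mem_singleton]
      split_ifs with h
      · simpa using h
      · simpa using h
    · rw [Finset.sum_insert (by simpa using h12), Finset.sum_singleton, n1, n2, hinf]
  obtain ⟨η, g, hη0, hη, hgx, hg⟩ := LPiece.radical hPT hA D hcov hx
  rw [eval₂_HP, Finset.prod_insert (by simpa using h12),
    Finset.prod_singleton, n1, n2] at hη
  have e1 : x - 1 ≠ 0 := by simpa using x_sub_ne hx 1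
  have e2 : x + 1 ≠ 0 := by simpa using x_sub_ne hx (-1)
  have hη' : η ^ 3 = (x - 1) ^ 2 * (x + 1) ^ 2 := by
    rw [hη]; simp
  have e3 : x ^ 2 - 1 ≠ 0 := by
    rw [show x ^ 2 - 1 = (x - 1) * (x + 1) by ring]; exact mul_ne_zero e1 e2
  set X : Ω := (x ^ 2 - 1) / η with hXdef
  have hX3 : X ^ 3 = x ^ 2 - 1 := by
    rw [hXdef, div_pow, hη']
    field_simp
    ring
  have hXt : Transcendental ℂ X := by
    intro h
    have h1 : IsAlgebraic ℂ (x ^ 2 - 1) := by rw [← hX3]; exact h.pow 3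
    have h2 : IsAlgebraic ℂ (x ^ 2) := by
      have := h1.add (isAlgebraic_one (R := ℂ) (A := Ω))
      rwa [sub_add_cancel] at this
    exact hx (h2.of_pow (by norm_num))
  have hX0 : X ≠ 0 := div_ne_zero e3 hη0
  refine finish hx hgx hg (X := X) (Y := x) hXt ?_ memL memR ?_
    (a₂ := 0) (a₄ := 0) (a₆ := 1) ?_ ?_
  · exact div_mem (sub_mem (pow_mem memL 2) (one_mem _)) memR
  · have : η = (x ^ 2 - 1) / X := by
      rw [hXdef]; field_simp
    rw [this]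
    exact div_mem (sub_mem (pow_mem memR 2) (one_mem _)) memL
  · rw [curve_Δ]; norm_num
  · rw [hX3]; simp

/-- type (2,4,4) -/
theorem case244 (hPT : PTFacts Ω) (hA : 2 ≤ rdeg A) (nu : OnePoint ℂ → ℕ)
    (hp : ∀ p : ℂ, nu (p : OnePoint ℂ) = if p = 0 then 4 else if p = 1 then 2 else 1)
    (hinf : nu OnePoint.infty = 4)
    (hcov : ∀ q, locDeg A q * nu q = nu (pmap A q)) {x : Ω} (hx : Transcendental ℂ x) :
    IsLattesW A := by
  classical
  have h12 : (0 : ℂ) ≠ 1 := by norm_num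
  have n1 : nu ((0 : ℂ) : OnePoint ℂ) = 4 := by rw [hp]; simp
  have n2 : nu ((1 : ℂ) : OnePoint ℂ) = 2 := by rw [hp]; simp
  have D : PData nu 4 {0, 1} := by
    refine ⟨?_, by norm_num, ?_, ?_, ?_⟩
    · rintro (_ | c)
      · change 0 < nu OnePoint.infty
        rw [hinf]; norm_num
      · change 0 < nu (c : OnePoint ℂ)
        rw [hp]; split_ifs <;> norm_num
    · rintro (_ | c)
      · change nu OnePoint.infty ∣ 4
        rw [hinf]
      · change nu (c : OnePoint ℂ) ∣ 4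
        rw [hp]; split_ifs <;> norm_num
    · intro c
      rw [hp]
      simp only [Finset.mem_insert, Finset.mem_singleton]
      split_ifs with h h'
      · simp [h]
      · simp [h']
      · simp [h, h']
    · rw [Finset.sum_insert (by simpa using h12), Finset.sum_singleton, n1, n2, hinf]
  obtain ⟨η, g, hη0, hη, hgx, hg⟩ := LPiece.radical hPT hA D hcov hx
  rw [eval₂_HP, Finset.prod_insert (by simpa using h12),
    Finset.prod_singleton, n1, n2] at hη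
  have e1 : x ≠ 0 := by simpa using x_sub_ne hx 0
  have e2 : x - 1 ≠ 0 := by simpa using x_sub_ne hx 1
  have hη' : η ^ 4 = x ^ 3 * (x - 1) ^ 2 := by
    rw [hη]; simp
  set Y : Ω := x * (x - 1) / η with hYdef
  have hY4 : Y ^ 4 = x * (x - 1) ^ 2 := by
    rw [hYdef, div_pow, hη']
    field_simp
  have hY0 : Y ≠ 0 := div_ne_zero (mul_ne_zero e1 e2) hη0
  set X : Ω := Y ^ 2 / (x - 1) with hXdef
  have hX2 : X ^ 2 = x := by
    rw [hXdef, div_pow, ← pow_mul, hY4]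
    field_simp
  have hXt : Transcendental ℂ X := by
    intro h
    have h1 : IsAlgebraic ℂ x := by rw [← hX2]; exact h.pow 2
    exact hx h1
  have hYE : Y ∈ (ℂ⟮x⟯ ⊔ ℂ⟮η⟯ : IntermediateField ℂ Ω) :=
    div_mem (mul_mem memL (sub_mem memL (one_mem _))) memR
  have hxE : x ∈ (ℂ⟮X⟯ ⊔ ℂ⟮Y⟯ : IntermediateField ℂ Ω) := by
    rw [← hX2]; exact pow_mem memL 2
  refine finish hx hgx hg (X := X) (Y := Y) hXt ?_ hYE hxE ?_
    (a₂ := 0) (a₄ := -1) (a₆ := 0) ?_ ?_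
  · exact div_mem (pow_mem hYE 2) (sub_mem memL (one_mem _))
  · have : η = x * (x - 1) / Y := by
      rw [hYdef]; field_simp
    rw [this]
    exact div_mem (mul_mem hxE (sub_mem hxE (one_mem _))) memR
  · rw [curve_Δ]; norm_num
  · have h1 : Y ^ 2 = X * (x - 1) := by rw [hXdef]; field_simp
    rw [h1, ← hX2]; simp; ring

/-- type (2,3,6) -/
theorem case236 (hPT : PTFacts Ω) (hA : 2 ≤ rdeg A) (nu : OnePoint ℂ → ℕ)
    (hp : ∀ p : ℂ, nu (p : OnePoint ℂ) = if p = 1 then 3 else if p = 0 then 2 else 1)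
    (hinf : nu OnePoint.infty = 6)
    (hcov : ∀ q, locDeg A q * nu q = nu (pmap A q)) {x : Ω} (hx : Transcendental ℂ x) :
    IsLattesW A := by
  classical
  have h12 : (1 : ℂ) ≠ 0 := by norm_num
  have n1 : nu ((1 : ℂ) : OnePoint ℂ) = 3 := by rw [hp]; simp
  have n2 : nu ((0 : ℂ) : OnePoint ℂ) = 2 := by rw [hp]; simp
  have D : PData nu 6 {1, 0} := by
    refine ⟨?_, by norm_num, ?_, ?_, ?_⟩
    · rintro (_ | c)
      · change 0 < nu OnePoint.infty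
        rw [hinf]; norm_num
      · change 0 < nu (c : OnePoint ℂ)
        rw [hp]; split_ifs <;> norm_num
    · rintro (_ | c)
      · change nu OnePoint.infty ∣ 6
        rw [hinf]
      · change nu (c : OnePoint ℂ) ∣ 6
        rw [hp]; split_ifs <;> norm_num
    · intro c
      rw [hp]
      simp only [Finset.mem_insert, Finset.mem_singleton]
      split_ifs with h h'
      · simp [h]
      · simp [h']
      · simp [h, h']
    · rw [Finset.sum_insert (by simpa using h12), Finset.sum_singleton, n1, n2, hinf]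
  obtain ⟨η, g, hη0, hη, hgx, hg⟩ := LPiece.radical hPT hA D hcov hx
  rw [eval₂_HP, Finset.prod_insert (by simpa using h12),
    Finset.prod_singleton, n1, n2] at hη
  have e1 : x ≠ 0 := by simpa using x_sub_ne hx 0
  have e2 : x - 1 ≠ 0 := by simpa using x_sub_ne hx 1
  have hη' : η ^ 6 = (x - 1) ^ 4 * x ^ 3 := by
    rw [hη]; simp
  set w : Ω := x * (x - 1) / η with hwdef
  have hw6 : w ^ 6 = x ^ 3 * (x - 1) ^ 2 := by
    rw [hwdef, div_pow, hη']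
    field_simp
  have hw0 : w ≠ 0 := div_ne_zero (mul_ne_zero e1 e2) hη0
  set Y : Ω := w ^ 3 / (x * (x - 1)) with hYdef
  have hY2 : Y ^ 2 = x := by
    rw [hYdef, div_pow, ← pow_mul, hw6]
    field_simp
  set X : Ω := x * (x - 1) / w ^ 2 with hXdef
  have hX3 : X ^ 3 = x - 1 := by
    rw [hXdef, div_pow, ← pow_mul, hw6]
    field_simp
  have hXt : Transcendental ℂ X := by
    intro h
    have h1 : IsAlgebraic ℂ (x - 1) := by rw [← hX3]; exact h.pow 3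
    have h2 := h1.add (isAlgebraic_one (R := ℂ) (A := Ω))
    rw [sub_add_cancel] at h2
    exact hx h2
  have hX0 : X ≠ 0 := div_ne_zero (mul_ne_zero e1 e2) (pow_ne_zero _ hw0)
  have hwE : w ∈ (ℂ⟮x⟯ ⊔ ℂ⟮η⟯ : IntermediateField ℂ Ω) :=
    div_mem (mul_mem memL (sub_mem memL (one_mem _))) memR
  have hxE : x ∈ (ℂ⟮X⟯ ⊔ ℂ⟮Y⟯ : IntermediateField ℂ Ω) := by
    rw [← hY2]; exact pow_mem memR 2
  have hwXY : w = X * Y := by
    rw [hXdef, hYdef]; field_simp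
  have hwE' : w ∈ (ℂ⟮X⟯ ⊔ ℂ⟮Y⟯ : IntermediateField ℂ Ω) := by
    rw [hwXY]; exact mul_mem memL memR
  refine finish hx hgx hg (X := X) (Y := Y) hXt ?_ ?_ hxE ?_
    (a₂ := 0) (a₄ := 0) (a₆ := 1) ?_ ?_
  · exact div_mem (mul_mem memL (sub_mem memL (one_mem _))) (pow_mem hwE 2)
  · exact div_mem (pow_mem hwE 3) (mul_mem memL (sub_mem memL (one_mem _)))
  · have : η = x * (x - 1) / w := by
      rw [hwdef]; field_simp
    rw [this]
    exact div_mem (mul_mem hxE (sub_mem hxE (one_mem _))) hwE'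
  · rw [curve_Δ]; norm_num
  · rw [hX3, hY2]; simp

end LWC

/-- the four explicit cases -/
theorem isLattesW_of_normalForm (hPT : PTFacts Ω) (hA : 2 ≤ rdeg A) (nu : OnePoint ℂ → ℕ)
    (hnu : NormalForm nu) (hcov : ∀ q, locDeg A q * nu q = nu (pmap A q)) : IsLattesW A := by
  obtain ⟨x, hx⟩ := exists_transcendental_omega (Ω := Ω)
  rcases hnu with ⟨p₁, p₂, p₃, h12, h13, h23, h⟩ | h | h | h
  · refine LWC.case2222 hPT hA nu h12 h13 h23 (fun p => ?_) ?_ hcov hx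
    · rw [h]
      simp only [OnePoint.coe_eq_coe, OnePoint.coe_ne_infty, or_false]
    · rw [h]; simp
  · refine LWC.case333 hPT hA nu (fun p => ?_) ?_ hcov hx
    · rw [h]
      simp only [OnePoint.coe_eq_coe, OnePoint.coe_ne_infty, or_false]
    · rw [h]; simp
  · refine LWC.case244 hPT hA nu (fun p => ?_) ?_ hcov hx
    · rw [h]
      simp only [OnePoint.coe_eq_coe, OnePoint.coe_ne_infty, or_false]
    · rw [h]; simp
  · refine LWC.case236 hPT hA nu (fun p => ?_) ?_ hcov hx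
    · rw [h]
      simp only [OnePoint.coe_eq_coe, OnePoint.coe_ne_infty, if_false]
    · rw [h]; simp

end Pool.Agent.Helper63.Pak
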