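import Pool.Agent.Helper15.Pak.LWC
import Pool.Agent.Helper99.Pak.LWA
import Pool.Agent.Helper63.Pak.RARat

/-! MP_005844_an: coverings of parabolic orbifolds are Lattès maps of Weierstrass curves. -/

namespace Pool.Agent.Helper63.Pak

open IntermediateField

variable {Ω : Type} [Field Ω] [Algebra ℂ Ω] [CurveUniverse Ω] {A B : RatFunc ℂ}

theorem OrbLattes.isLattesW (hPT : PTFacts Ω) (hA : 2 ≤ rdeg A) (h : OrbLattes A) :
    IsLattesW A := by
  obtain ⟨B, hAB, nu, hnu, hcov⟩ := h.exists_normalForm hPT hA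
  have hB : 2 ≤ rdeg B := by rw [← MobConj.rdeg_eq hAB]; exact hA
  exact IsLattesW.of_mobConj hA hAB (isLattesW_of_normalForm hPT hB nu hnu hcov)

end Pool.Agent.Helper63.Pak
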