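import Pool.Agent.Helper98.Pak.Conj
import Pool.Agent.Helper33.Pak.RAOmega

/-! Piece NP (no periodic critical point). -/

set_option linter.unusedSectionVars false

namespace Pool.Agent.Helper63.Pak

open IntermediateField

variable {Ω : Type} [Field Ω] [Algebra ℂ Ω] [CurveUniverse Ω]
variable {A B : RatFunc ℂ} {x x' y : ℤ → Ω} {R : IntermediateField ℂ Ω}

namespace NP

/-- the place of `K` below a place of `K'` -/
noncomputable def down (K : IntermediateField ℂ Ω) {K' : IntermediateField ℂ Ω} (P : Pl K') :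
    Pl K := Pl.mk K P.pt

theorem down_eq_iff {K K' : IntermediateField ℂ Ω} (P : Pl K') (p : Pl K) :
    down K P = p ↔ SameOn K P.pt p.pt := by
  rw [down, ← Pl.mk_eq_mk, Pl.mk_pt]

/-- For a normal extension `K'/K` with all ramification indices dividing `E0`:
`[K':K]` divides `E0 * Ram`. -/
theorem dvd_ram (hPT : PTFacts Ω) {K K' : IntermediateField ℂ Ω} (hK : FF K) (hK' : FF K')
    (h : K ≤ K') (hn : ∀ g : Ω ≃ₐ[ℂ] Ω, Fixes g K → mapF g K' = K') {E0 : ℕ}
    (hE : ∀ v, e v K K' ∣ E0) : K.relfinrank K' ∣ E0 * Ram K K' := by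
  classical
  have hconst : ∀ v w : Pt Ω, SameOn K v w → e v K K' = e w K K' := by
    intro v w hvw
    obtain ⟨g, hg, hgw⟩ := hPT.transitive hK hvw
    have h1 := e_smul g v K K'
    have h2 : mapF g K = K := by
      ext z
      rw [mem_mapF]
      constructor
      · intro hz
        have h3 := hg _ hz
        rw [g.apply_symm_apply] at h3
        rw [h3]
        exact hz
      · intro hz
        have h3 := hg z hz
        have h4 : g.symm z = z := by
          conv_lhs => rw [← h3]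
          exact g.symm_apply_apply z
        rw [h4]
        exact hz
    rw [h2, hn g hg, hgw] at h1
    exact h1.symm
  set f : Pl K' → ℕ := fun P => e P.pt K K' - 1 with hf
  have hs : (Function.support f).Finite := by
    refine (hPT.finite_ram hK hK' h).subset fun P hP => ?_
    intro h1
    apply hP
    simp [hf, h1]
  have hfib : ∀ p : Pl K, {P : Pl K' | down K P = p}.Finite := by
    intro p
    refine (hPT.finite_over p.pt hK hK' h).subset fun P hP => ?_
    exact (down_eq_iff P p).1 hP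
  set T : Finset (Pl K) := hs.toFinset.image (down K) with hT
  set S : Finset (Pl K') := T.biUnion fun p => (hfib p).toFinset with hS
  have hsub : Function.support f ⊆ (S : Set (Pl K')) := by
    intro P hP
    rw [Finset.mem_coe, hS, Finset.mem_biUnion]
    refine ⟨down K P, ?_, ?_⟩
    · rw [hT, Finset.mem_image]
      exact ⟨P, (Set.Finite.mem_toFinset hs).2 hP, rfl⟩
    · rw [Set.Finite.mem_toFinset]
      rfl
  have hram : Ram K K' = ∑ P ∈ S, f P := by
    rw [Ram]
    exact finsum_eq_sum_of_support_subset f hsub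
  rw [hram, hS, Finset.sum_biUnion, Finset.mul_sum]
  · refine Finset.dvd_sum fun p _ => ?_
    have h1 : ∀ P ∈ (hfib p).toFinset, e P.pt K K' = e p.pt K K' := by
      intro P hP
      rw [Set.Finite.mem_toFinset] at hP
      exact hconst _ _ ((down_eq_iff P p).1 hP)
    have h2 : ∑ P ∈ (hfib p).toFinset, f P = (hfib p).toFinset.card * (e p.pt K K' - 1) := by
      have h2' : ∀ P ∈ (hfib p).toFinset, f P = e p.pt K K' - 1 := by
        intro P hP
        simp only [hf]
        rw [h1 P hP]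
      rw [Finset.sum_congr rfl h2', Finset.sum_const, smul_eq_mul]
    have h3 : (hfib p).toFinset.card * e p.pt K K' = K.relfinrank K' := by
      rw [← hPT.sum_e p.pt hK hK' h]
      have h4 : {P : Pl K' | SameOn K P.pt p.pt} = ((hfib p).toFinset : Set (Pl K')) := by
        rw [Set.Finite.coe_toFinset]
        ext P
        exact (down_eq_iff P p).symm
      rw [h4, finsum_mem_coe_finset, Finset.sum_congr rfl h1, Finset.sum_const, smul_eq_mul]
    obtain ⟨m, hm⟩ := hE p.pt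
    rw [h2, hm, ← h3]
    exact ⟨m * (e p.pt K K' - 1), by ring⟩
  · intro p _ p' _ hpp'
    rw [Function.onFun, Finset.disjoint_left]
    intro P hP hP'
    rw [Set.Finite.mem_toFinset] at hP hP'
    exact hpp' (hP.symm.trans hP')

/-- the bound of the degree of a normal extension -/
theorem relfinrank_le (hPT : PTFacts Ω) {K K' : IntermediateField ℂ Ω} (hK : FF K) (hK' : FF K')
    (h : K ≤ K') (hn : ∀ g : Ω ≃ₐ[ℂ] Ω, Fixes g K → mapF g K' = K') {E0 : ℕ} (hE0 : 0 < E0)
    (hE : ∀ v, e v K K' ∣ E0) (hpos : 0 < chi K') : K.relfinrank K' ≤ 2 * E0 := by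
  have h1 := dvd_ram hPT hK hK' h hn hE
  have h2 := hPT.chi_eq hK hK' h
  have h3 := hPT.chi_le hK'
  have h4 : (K.relfinrank K' : ℤ) ∣ E0 * chi K' := by
    rw [h2, mul_sub]
    refine dvd_sub ?_ ?_
    · exact ⟨E0 * chi K, by ring⟩
    · exact_mod_cast h1
  have h5 : (K.relfinrank K' : ℤ) ≤ E0 * chi K' := by
    refine Int.le_of_dvd ?_ h4
    have : (0 : ℤ) < E0 := by exact_mod_cast hE0
    positivity
  have h6 : (K.relfinrank K' : ℤ) ≤ 2 * E0 := by
    have : (0 : ℤ) < E0 := by exact_mod_cast hE0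
    nlinarith
  exact_mod_cast h6

/-- if no critical point is periodic, the local degrees of the iterates divide a constant -/
theorem locIter_dvd (hPT : PTFacts Ω) (hA : 2 ≤ rdeg A)
    (hcrit : ∀ c, 2 ≤ locDeg A c → ∀ n : ℕ, 1 ≤ n → (pmap A)^[n] c ≠ c) :
    ∃ E0 : ℕ, 0 < E0 ∧ ∀ j q, locIter A j q ∣ E0 := by
  classical
  have hA1 : 1 ≤ rdeg A := by omega
  have hfin := crit_finite (A := A) hPT hA1
  refine ⟨∏ c ∈ hfin.toFinset, locDeg A c, Finset.prod_pos fun c _ => locDeg_pos hPT hA1 c, ?_⟩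
  intro j q
  rw [locIter]
  have h1 : ∏ i ∈ Finset.range j, locDeg A ((pmap A)^[i] q) =
      ∏ i ∈ (Finset.range j).filter (fun i => locDeg A ((pmap A)^[i] q) ≠ 1),
        locDeg A ((pmap A)^[i] q) := by
    rw [Finset.prod_filter_ne_one]
  have hinj : Set.InjOn (fun i => (pmap A)^[i] q)
      ((Finset.range j).filter (fun i => locDeg A ((pmap A)^[i] q) ≠ 1)) := by
    have key : ∀ i i' : ℕ, i < i' → locDeg A ((pmap A)^[i] q) ≠ 1 →
        (pmap A)^[i] q ≠ (pmap A)^[i'] q := by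
      intro i i' hii' hi heq
      have h2 : 2 ≤ locDeg A ((pmap A)^[i] q) := by
        have := locDeg_pos (A := A) hPT hA1 ((pmap A)^[i] q)
        omega
      refine hcrit _ h2 (i' - i) (by omega) ?_
      rw [← Function.iterate_add_apply, Nat.sub_add_cancel hii'.le]
      exact heq.symm
    intro i hi i' hi' heq
    rw [Finset.mem_coe, Finset.mem_filter] at hi hi'
    rcases lt_trichotomy i i' with h2 | h2 | h2
    · exact absurd heq (key i i' h2 hi.2)
    · exact h2
    · exact absurd heq.symm (key i' i h2 hi'.2)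
  rw [h1, ← Finset.prod_image (f := fun c => locDeg A c) hinj]
  refine Finset.prod_dvd_prod_of_subset _ _ _ fun c hc => ?_
  rw [Finset.mem_image] at hc
  obtain ⟨i, hi, rfl⟩ := hc
  rw [Finset.mem_filter] at hi
  rw [Set.Finite.mem_toFinset]
  exact hi.2

/-- the orbit of `x j` -/
def orb0 (x : ℤ → Ω) (R : IntermediateField ℂ Ω) (j : ℕ) : Set Ω :=
  {w | ∃ g : Ω ≃ₐ[ℂ] Ω, g (x 0) = x 0 ∧ mapF g R = R ∧ g (x j) = w}

theorem ev_of_mem_orb0 (hA : 2 ≤ rdeg A) (hx : Tower A x) {j : ℕ} {w : Ω}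
    (hw : w ∈ orb0 x R j) : Transcendental ℂ w ∧ ev (iter A j) w = x 0 := by
  obtain ⟨g, h0, -, rfl⟩ := hw
  have h1 : ev (iter A j) (x j) = x 0 := by
    rw [ev_iter (hx.trans j) (by omega)]
    have : ∀ k : ℕ, (ev A)^[k] (x k) = x 0 := by
      intro k
      induction k with
      | zero => rfl
      | succ k ih =>
        rw [Function.iterate_succ_apply]
        have := hx.step (k : ℤ)
        push_cast
        rw [this, ih]
    exact this j
  refine ⟨?_, by rw [← ev_map, h1, h0]⟩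
  intro halg
  refine hx.trans j ?_
  obtain ⟨p, hp, hp'⟩ := halg
  refine ⟨p, hp, ?_⟩
  have h2 : g (Polynomial.aeval (x j) p) = 0 := by
    rw [← hp']
    exact (Polynomial.aeval_algHom_apply (g : Ω →ₐ[ℂ] Ω) (x j) p).symm
  exact (map_eq_zero g).1 h2

theorem orb0_finite (hA : 2 ≤ rdeg A) (hx : Tower A x) (j : ℕ) : (orb0 x R j).Finite := by
  have h1 : 1 ≤ rdeg (iter A j) := by
    rw [rdeg_iter]
    exact Nat.one_le_pow _ _ (by omega)
  exact (finite_ev_eq (hx.trans 0) h1).subset fun w hw => (ev_of_mem_orb0 hA hx hw).2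

theorem self_mem_orb0 (j : ℕ) : x j ∈ orb0 x R j :=
  ⟨1, rfl, by ext z; rw [mem_mapF]; rfl, rfl⟩

theorem map_comp_mapF (g h : Ω ≃ₐ[ℂ] Ω) (K : IntermediateField ℂ Ω) :
    mapF g (mapF h K) = mapF (g * h) K := by
  ext z
  rw [mem_mapF, mem_mapF, mem_mapF]
  rfl

theorem mapF_symm_of_eq {g : Ω ≃ₐ[ℂ] Ω} {K : IntermediateField ℂ Ω} (h : mapF g K = K) :
    mapF g⁻¹ K = K := by
  conv_lhs => rw [← h]
  rw [map_comp_mapF, inv_mul_cancel]
  ext z
  rw [mem_mapF]
  rfl

theorem smul_mem_orb0 {j : ℕ} {g : Ω ≃ₐ[ℂ] Ω} (h0 : g (x 0) = x 0) (hg : mapF g R = R) {w : Ω}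
    (hw : w ∈ orb0 x R j) : g w ∈ orb0 x R j := by
  obtain ⟨h, h1, h2, rfl⟩ := hw
  exact ⟨g * h, by rw [AlgEquiv.mul_apply, h1, h0], by rw [← map_comp_mapF, h2, hg], rfl⟩

/-- the field generated by the orbit -/
noncomputable def Kf (x : ℤ → Ω) (R : IntermediateField ℂ Ω) (j : ℕ) : IntermediateField ℂ Ω :=
  IntermediateField.adjoin ℂ (orb0 x R j)

theorem mapF_Kf {j : ℕ} {g : Ω ≃ₐ[ℂ] Ω} (hg : ∀ w ∈ orb0 x R j, g w ∈ orb0 x R j)
    (hfin : (orb0 x R j).Finite) : mapF g (Kf x R j) = Kf x R j := by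
  have h1 : g '' orb0 x R j = orb0 x R j := by
    apply Set.eq_of_subset_of_ncard_le
    · rintro _ ⟨w, hw, rfl⟩
      exact hg w hw
    · rw [Set.ncard_image_of_injective _ g.injective]
    · exact hfin
  rw [Kf, mapF, IntermediateField.adjoin_map]
  congr 1

/-- the fixed field -/
noncomputable def Bf (x : ℤ → Ω) (R : IntermediateField ℂ Ω) (j : ℕ) : IntermediateField ℂ Ω where
  carrier := {z | z ∈ Kf x R j ∧ ∀ g : Ω ≃ₐ[ℂ] Ω, g (x 0) = x 0 → mapF g R = R → g z = z}
  mul_mem' := fun {a b} ha hb => ⟨mul_mem ha.1 hb.1, fun g h0 hg => by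
    rw [map_mul, ha.2 g h0 hg, hb.2 g h0 hg]⟩
  one_mem' := ⟨one_mem _, fun g _ _ => map_one g⟩
  add_mem' := fun {a b} ha hb => ⟨add_mem ha.1 hb.1, fun g h0 hg => by
    rw [map_add, ha.2 g h0 hg, hb.2 g h0 hg]⟩
  zero_mem' := ⟨zero_mem _, fun g _ _ => map_zero g⟩
  algebraMap_mem' := fun c => ⟨(Kf x R j).algebraMap_mem c, fun g _ _ => g.commutes c⟩
  inv_mem' := fun a ha => ⟨inv_mem ha.1, fun g h0 hg => by rw [map_inv₀, ha.2 g h0 hg]⟩

theorem mem_Bf {j : ℕ} {z : Ω} : z ∈ Bf x R j ↔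
    z ∈ Kf x R j ∧ ∀ g : Ω ≃ₐ[ℂ] Ω, g (x 0) = x 0 → mapF g R = R → g z = z := Iff.rfl

theorem Bf_le (j : ℕ) : Bf x R j ≤ Kf x R j := fun _ hz => hz.1

/-- the polynomial whose roots are the orbit -/
noncomputable def orbPoly (x : ℤ → Ω) (R : IntermediateField ℂ Ω) {j : ℕ}
    (hfin : (orb0 x R j).Finite) : Polynomial Ω :=
  ∏ w ∈ hfin.toFinset, (Polynomial.X - Polynomial.C w)

theorem orbPoly_coeff_mem {j : ℕ} (hfin : (orb0 x R j).Finite) (n : ℕ) :
    (orbPoly x R hfin).coeff n ∈ Bf x R j := by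
  rw [mem_Bf]
  constructor
  · have h1 : orbPoly x R hfin ∈ Polynomial.lifts (algebraMap (Kf x R j) Ω) := by
      rw [orbPoly]
      refine prod_mem fun w hw => ?_
      have hw' : w ∈ Kf x R j :=
        IntermediateField.subset_adjoin _ _ ((Set.Finite.mem_toFinset hfin).1 hw)
      rw [sub_eq_add_neg, ← Polynomial.C_neg]
      refine add_mem (Polynomial.X_mem_lifts _) ?_
      exact Polynomial.C_mem_lifts (algebraMap (Kf x R j) Ω) ⟨-w, neg_mem hw'⟩
    rw [Polynomial.lifts_iff_coeff_lifts] at h1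
    obtain ⟨a, ha⟩ := h1 n
    rw [← ha]
    exact a.2
  · intro g h0 hg
    have h2 : (orbPoly x R hfin).map (g : Ω →+* Ω) = orbPoly x R hfin := by
      classical
      rw [orbPoly, Polynomial.map_prod]
      have h3 : hfin.toFinset.image g = hfin.toFinset := by
        apply Finset.eq_of_subset_of_card_le
        · intro w hw
          rw [Finset.mem_image] at hw
          obtain ⟨w', hw', rfl⟩ := hw
          rw [Set.Finite.mem_toFinset] at hw' ⊢
          exact smul_mem_orb0 h0 hg hw'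
        · rw [Finset.card_image_of_injective _ g.injective]
      conv_rhs => rw [← h3]
      rw [Finset.prod_image (fun a _ b _ hab => g.injective hab)]
      refine Finset.prod_congr rfl fun w _ => ?_
      rw [Polynomial.map_sub, Polynomial.map_X, Polynomial.map_C]
      rfl
    have h4 := congrArg (fun p => p.coeff n) h2
    simp only [Polynomial.coeff_map] at h4
    exact h4

theorem orbPoly_lift {j : ℕ} (hfin : (orb0 x R j).Finite) :
    ∃ P : Polynomial (Bf x R j), P.map (algebraMap (Bf x R j) Ω) = orbPoly x R hfin := by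
  have h1 : orbPoly x R hfin ∈ Polynomial.lifts (algebraMap (Bf x R j) Ω) := by
    rw [Polynomial.lifts_iff_coeff_lifts]
    intro n
    exact ⟨⟨_, orbPoly_coeff_mem hfin n⟩, rfl⟩
  rw [Polynomial.mem_lifts] at h1
  exact h1

/-- `K_j / B_j` is normal -/
theorem normal {j : ℕ} (hfin : (orb0 x R j).Finite) (g : Ω ≃ₐ[ℂ] Ω) (hg : Fixes g (Bf x R j)) :
    mapF g (Kf x R j) = Kf x R j := by
  refine mapF_Kf (fun w hw => ?_) hfin
  have h1 : (orbPoly x R hfin).map (g : Ω →+* Ω) = orbPoly x R hfin := by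
    ext n
    rw [Polynomial.coeff_map]
    exact hg _ (orbPoly_coeff_mem hfin n)
  have h2 : (orbPoly x R hfin).IsRoot w := by
    rw [orbPoly, Polynomial.IsRoot, Polynomial.eval_prod]
    refine Finset.prod_eq_zero ((Set.Finite.mem_toFinset hfin).2 hw) ?_
    simp
  have h3 : (orbPoly x R hfin).IsRoot (g w) := by
    rw [← h1]
    exact h2.map (f := (g : Ω →+* Ω))
  rw [orbPoly, Polynomial.IsRoot, Polynomial.eval_prod, Finset.prod_eq_zero_iff] at h3
  obtain ⟨w', hw', h4⟩ := h3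
  rw [Polynomial.eval_sub, Polynomial.eval_X, Polynomial.eval_C, sub_eq_zero] at h4
  rw [h4]
  exact (Set.Finite.mem_toFinset hfin).1 hw'

/-- the size of the orbit is at most the degree -/
theorem ncard_le (hPT : PTFacts Ω) {j : ℕ} (hB : FF (Bf x R j))
    (hK : FF (Kf x R j)) : (orb0 x R j).ncard ≤ (Bf x R j).relfinrank (Kf x R j) := by
  classical
  have hpos := hPT.relfinrank_pos hB hK (Bf_le j)
  rw [IntermediateField.relfinrank_eq_finrank_of_le (Bf_le j)] at hpos ⊢
  have : FiniteDimensional (Bf x R j) (IntermediateField.extendScalars (Bf_le (x := x) (R := R) j)) :=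
    FiniteDimensional.of_finrank_pos hpos
  have hxj : x j ∈ IntermediateField.extendScalars (Bf_le (x := x) (R := R) j) := by
    rw [IntermediateField.mem_extendScalars]
    exact IntermediateField.subset_adjoin _ _ (self_mem_orb0 j)
  set x' : IntermediateField.extendScalars (Bf_le (x := x) (R := R) j) := ⟨x j, hxj⟩ with hx'
  refine le_trans ?_ (minpoly.natDegree_le (A := Bf x R j) x')
  set p := minpoly (Bf x R j) x' with hp
  have hint : IsIntegral (Bf x R j) x' := IsIntegral.of_finite _ _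
  have hp0 : p ≠ 0 := minpoly.ne_zero hint
  have hroot : Polynomial.eval₂ (algebraMap (Bf x R j) Ω) (x j) p = 0 := by
    have h1 : Polynomial.aeval x' p = 0 := minpoly.aeval _ _
    have h2 := congrArg (algebraMap (IntermediateField.extendScalars
      (Bf_le (x := x) (R := R) j)) Ω) h1
    rw [map_zero, ← Polynomial.aeval_algebraMap_apply] at h2
    exact h2
  have hsub : orb0 x R j ⊆ ((p.map (algebraMap (Bf x R j) Ω)).roots.toFinset : Set Ω) := by
    rintro _ ⟨g, h0, hg, rfl⟩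
    rw [Finset.mem_coe, Multiset.mem_toFinset, Polynomial.mem_roots (by
      rw [Ne, Polynomial.map_eq_zero]; exact hp0), Polynomial.IsRoot, Polynomial.eval_map]
    have h1 : (g : Ω →+* Ω).comp (algebraMap (Bf x R j) Ω) = algebraMap (Bf x R j) Ω := by
      ext z
      exact z.2.2 g h0 hg
    have h2 := Polynomial.hom_eval₂ p (algebraMap (Bf x R j) Ω) (g : Ω →+* Ω) (x j)
    rw [hroot, map_zero, h1] at h2
    exact h2.symm
  calc (orb0 x R j).ncard ≤ ((p.map (algebraMap (Bf x R j) Ω)).roots.toFinset : Set Ω).ncard :=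
        Set.ncard_le_ncard hsub (Finset.finite_toSet _)
    _ = (p.map (algebraMap (Bf x R j) Ω)).roots.toFinset.card := Set.ncard_coe_finset _
    _ ≤ Multiset.card (p.map (algebraMap (Bf x R j) Ω)).roots := Multiset.toFinset_card_le _
    _ ≤ (p.map (algebraMap (Bf x R j) Ω)).natDegree := Polynomial.card_roots' _
    _ = p.natDegree := Polynomial.natDegree_map _

theorem Kf_le (hA : 2 ≤ rdeg A) (hPT : PTFacts Ω) (hx : Tower A x) (hR : IsSmallField x R)
    (j : ℕ) : Kf x R j ≤ R := by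
  rw [Kf, IntermediateField.adjoin_le_iff]
  rintro _ ⟨g, h0, hg, rfl⟩
  have h1 := hR.tower_mem hPT hA hx j
  rw [SetLike.mem_coe, ← hg]
  exact apply_mem_mapF.2 h1

theorem Kf_ff (hA : 2 ≤ rdeg A) (hx : Tower A x) (j : ℕ) : FF (Kf x R j) := by
  constructor
  · exact ⟨(orb0_finite hA hx j).toFinset, by rw [Set.Finite.coe_toFinset]; rfl⟩
  · intro h
    have h1 : x j ∈ Kf x R j := IntermediateField.subset_adjoin _ _ (self_mem_orb0 j)
    rw [h, IntermediateField.mem_bot] at h1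
    obtain ⟨c, hc⟩ := h1
    exact hx.trans j (hc ▸ isAlgebraic_algebraMap c)

theorem x0_mem (hA : 2 ≤ rdeg A) (hx : Tower A x) (j : ℕ) : x 0 ∈ Kf x R j := by
  have h1 : x j ∈ Kf x R j := IntermediateField.subset_adjoin _ _ (self_mem_orb0 j)
  rw [← (ev_of_mem_orb0 hA hx (self_mem_orb0 (R := R) j)).2]
  exact ev_mem h1

theorem Bf_ff (hA : 2 ≤ rdeg A) (hx : Tower A x) (j : ℕ) : FF (Bf x R j) ∧ Cx x 0 ≤ Bf x R j := by
  have h1 : Cx x 0 ≤ Bf x R j := by
    rw [Cx, IntermediateField.adjoin_simple_le_iff, mem_Bf]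
    exact ⟨x0_mem hA hx j, fun g h0 _ => h0⟩
  exact ⟨FF.of_le_of_le (hx.ff 0) (Kf_ff hA hx j) h1 (Bf_le j), h1⟩

theorem e_sup_dvd (hPT : PTFacts Ω) {E0 : ℕ} (v : Pt Ω) {K : IntermediateField ℂ Ω}
    (hK : FF K) {s : Finset Ω} (hs : ∀ w ∈ s, FF ℂ⟮w⟯ ∧ K ≤ ℂ⟮w⟯ ∧ e v K ℂ⟮w⟯ ∣ E0) :
    FF (K ⊔ IntermediateField.adjoin ℂ (s : Set Ω)) ∧
      e v K (K ⊔ IntermediateField.adjoin ℂ (s : Set Ω)) ∣ E0 := by
  classical
  induction s using Finset.induction_on with
  | empty =>
    rw [Finset.coe_empty, IntermediateField.adjoin_empty, sup_bot_eq]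
    exact ⟨hK, by rw [e_self]; exact one_dvd _⟩
  | insert w s hw ih =>
    obtain ⟨h1, h2⟩ := ih fun w' hw' => hs w' (Finset.mem_insert_of_mem hw')
    obtain ⟨h3, h4, h5⟩ := hs w (Finset.mem_insert_self _ _)
    have h6 : K ⊔ IntermediateField.adjoin ℂ ((insert w s : Finset Ω) : Set Ω) =
        ℂ⟮w⟯ ⊔ (K ⊔ IntermediateField.adjoin ℂ (s : Set Ω)) := by
      rw [Finset.coe_insert, ← Set.singleton_union, IntermediateField.adjoin_union]
      exact sup_left_comm _ _ _
    rw [h6]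
    refine ⟨h3.sup h1, ?_⟩
    rw [hPT.e_sup v hK h3 h1 h4 le_sup_left]
    exact Nat.lcm_dvd h5 h2

end NP

theorem no_periodic_case (hPT : PTFacts Ω) (hA : 2 ≤ rdeg A) (hx : Tower A x)
    (hR : IsSmallField x R) (hpos : ∀ L : IntermediateField ℂ Ω, FF L → L ≤ R → 0 < chi L)
    (hcrit : ∀ c, 2 ≤ locDeg A c → ∀ n : ℕ, 1 ≤ n → (pmap A)^[n] c ≠ c) :
    ∃ B : ℕ, ∀ j : ℕ,
      {w | ∃ g : Ω ≃ₐ[ℂ] Ω, g (x 0) = x 0 ∧ mapF g R = R ∧ g (x j) = w}.ncard ≤ B := by
  obtain ⟨E0, hE0, hdvd⟩ := NP.locIter_dvd hPT hA hcrit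
  refine ⟨2 * E0, fun j => ?_⟩
  change (NP.orb0 x R j).ncard ≤ _
  have hfin := NP.orb0_finite (R := R) hA hx j
  have hK := NP.Kf_ff (R := R) hA hx j
  obtain ⟨hB, hle⟩ := NP.Bf_ff (R := R) hA hx j
  refine (NP.ncard_le hPT hB hK).trans ?_
  refine NP.relfinrank_le hPT hB hK (NP.Bf_le j) (fun g hg => NP.normal hfin g hg) hE0
    (fun v => ?_) (hpos _ hK (NP.Kf_le hA hPT hx hR j))
  have h1 : e v (Cx x 0) (NP.Kf x R j) ∣ E0 := by
    have h2 := NP.e_sup_dvd hPT (E0 := E0) v (hx.ff 0) (s := hfin.toFinset) (fun w hw => ?_)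
    · have h3 : Cx x 0 ⊔ IntermediateField.adjoin ℂ (hfin.toFinset : Set Ω) = NP.Kf x R j := by
        rw [Set.Finite.coe_toFinset]
        exact sup_eq_right.2 (hle.trans (NP.Bf_le j))
      rw [h3] at h2
      exact h2.2
    · rw [Set.Finite.mem_toFinset] at hw
      obtain ⟨h3, h4⟩ := NP.ev_of_mem_orb0 hA hx hw
      have h5 : 1 ≤ rdeg (iter A j) := by
        rw [rdeg_iter]
        exact Nat.one_le_pow _ _ (by omega)
      refine ⟨ff_adjoin h3, ?_, ?_⟩
      · rw [Cx, IntermediateField.adjoin_simple_le_iff, ← h4]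
        exact ev_mem (IntermediateField.mem_adjoin_simple_self ℂ w)
      · rw [Cx, ← h4, hPT.e_ev v (iter A j) h3 h5, locDeg_iter hPT (by omega)]
        exact hdvd _ _
  rw [e_mul v hle (NP.Bf_le j)] at h1
  exact (Dvd.intro_left _ rfl).trans h1

end Pool.Agent.Helper63.Pak
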