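import Pool.Agent.Helper15.Pak.NP
import Pool.Agent.Helper91.Pak.PC1
import Pool.Agent.Helper30.Pak.L
import Pool.Agent.Helper73.Pak.EN
import Pool.Agent.Helper73.Pak.OG
import Pool.Agent.Helper5.Pak.Poly
import Pool.Agent.Helper99.Pak.Exc
import Pool.Agent.Helper99.Pak.ExcConj
import Pool.Agent.Helper99.Pak.MobInv
import Pool.Agent.Helper99.Pak.LWA

/-! Piece UU (assembly of the rigidity of close towers). -/

set_option linter.unusedSectionVars false

namespace Pool.Agent.Helper63.Pak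

open IntermediateField

variable {Ω : Type} [Field Ω] [Algebra ℂ Ω] [CurveUniverse Ω]
variable {A B : RatFunc ℂ} {x x' y : ℤ → Ω} {R : IntermediateField ℂ Ω}

namespace UU

theorem not_bounded {S : ℕ → Set Ω} (h : ∀ j : ℕ, (S j).Finite ∧ 2 ^ j ≤ (S j).ncard) {q B : ℕ}
    (hq : 1 ≤ q) (hB : ∀ j : ℕ, (S (q * j)).ncard ≤ B) : False := by
  have h1 := (h (q * B)).2.trans (hB B)
  have h2 : B < 2 ^ B := Nat.lt_two_pow_self
  have h3 : 2 ^ B ≤ 2 ^ (q * B) := Nat.pow_le_pow_right (by norm_num) (by nlinarith)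
  omega

/-- iterates of an automorphism shifting the tower -/
theorem shift_pow {σ : Ω ≃ₐ[ℂ] Ω} (hσ : ∀ n, σ (x n) = x (n + 1)) (k : ℕ) (n : ℤ) :
    (σ ^ k) (x n) = x (n + k) := by
  induction k generalizing n with
  | zero => simp
  | succ k ih =>
    rw [pow_succ, AlgEquiv.mul_apply, hσ, ih]
    congr 1
    push_cast
    ring

end UU

theorem rigidU_noExc (hPT : PTFacts Ω) (hA : 2 ≤ rdeg A) (hE : NoExc A) (hL : ¬ OrbLattes A) :
    RigidU Ω A := by
  intro x x' hx hx' h0 hc
  by_contra h1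
  obtain ⟨R, hR⟩ := exists_smallField hPT hA hx
  have hpos : ∀ L : IntermediateField ℂ Ω, FF L → L ≤ R → 0 < chi L := fun L hL1 hL2 =>
    IsSmallField.chi_pos_orb hPT hA hx hR hL hL1 hL2
  have hgrow := fun j : ℕ => orbit_growth hPT hA hx hx' hR h0 h1 hc j
  by_cases hcrit : ∀ c, 2 ≤ locDeg A c → ∀ n : ℕ, 1 ≤ n → (pmap A)^[n] c ≠ c
  · obtain ⟨B, hB⟩ := no_periodic_case hPT hA hx hR hpos hcrit
    exact UU.not_bounded hgrow (le_refl 1) (B := B) fun j => by rw [one_mul]; exact hB j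
  · push Not at hcrit
    obtain ⟨c, hc2, n, hn, hcn⟩ := hcrit
    have hA1 : 1 ≤ rdeg A := by omega
    have hA' : 2 ≤ rdeg (iter A n) := by
      rw [rdeg_iter]
      calc 2 ≤ rdeg A := hA
        _ = rdeg A ^ 1 := (pow_one _).symm
        _ ≤ rdeg A ^ n := Nat.pow_le_pow_right (by omega) hn
    have hxn : Tower (iter A n) (fun m => x (n * m)) := hx.pow hA1 n
    have hRn : IsSmallField (fun m => x (n * m)) R := hR.pow hPT hA hx hn
    have hEn : NoExc (iter A n) := hE.iter hPT hA hn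
    obtain ⟨σ, hσ⟩ := exists_shift hA1 hx
    have hσn : ∀ m : ℤ, (σ ^ n) ((fun m => x (n * m)) m) = (fun m => x (n * m)) (m + 1) := by
      intro m
      simp only
      rw [UU.shift_pow hσ]
      congr 1
      ring
    obtain ⟨E, nu, M, hF⟩ := exists_EFam hPT hA' hxn hRn hEn hpos hσn
    have ha : pmap (iter A n) c = c := by rw [pmap_iter hPT hA1, hcn]
    have hδ : 2 ≤ locDeg (iter A n) c := by
      rw [locDeg_iter hPT hA1]
      have h2 : locDeg A c ∣ locIter A n c := by
        rw [locIter]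
        exact Finset.dvd_prod_of_mem (fun i => locDeg A ((pmap A)^[i] c))
          (Finset.mem_range.2 (show 0 < n by omega))
      have h3 : 0 < locIter A n c := Finset.prod_pos fun i _ => locDeg_pos hPT hA1 _
      exact hc2.trans (Nat.le_of_dvd h3 h2)
    obtain ⟨B, hB⟩ := periodic_case hPT hA' hxn hRn hpos hEn hσn hF ha hδ
    refine UU.not_bounded hgrow hn (B := B) fun j => ?_
    have h4 := hB j
    simp only [mul_zero] at h4
    push_cast
    exact h4

theorem rigidU (hPT : PTFacts Ω) (hA : 2 ≤ rdeg A) (hS : ¬ SpecialIn Ω A) : RigidU Ω A := by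
  rcases exc_trichotomy (Ω := Ω) hPT hA with h | h | ⟨P, hd, hc, h⟩
  · exact rigidU_noExc hPT hA h fun hL => hS (Or.inl hL)
  · exact absurd (Or.inr (Or.inl h)) hS
  · refine RigidU.of_mobConj hPT hA h (rigidU_poly hPT P hd hc rfl fun hS' => hS ?_)
    exact SpecialIn.of_mobConj hPT hA h hS'

end Pool.Agent.Helper63.Pak
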